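import Pool.Agent.Helper17.RZ.St1

/-!
# Project RZ, module A7: `PP F` implies `PP (F(t))` (assembly)
-/

set_option autoImplicit false

open Polynomial

namespace Pool.Agent.Helper11.RZ

open Pool.Agent.Helper17.RZ

universe u

/-- diagonal linear equivalence -/
noncomputable def diagEquiv {K : Type u} [Field K] (s : Fin 3 → K) (hs : ∀ i, s i ≠ 0) :
    (Fin 3 → K) ≃ₗ[K] (Fin 3 → K) :=
  LinearEquiv.piCongrRight (fun i => LinearEquiv.smulOfNeZero K K (s i) (hs i))

theorem diagEquiv_apply {K : Type u} [Field K] (s : Fin 3 → K) (hs : ∀ i, s i ≠ 0)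
    (x : Fin 3 → K) (i : Fin 3) : diagEquiv s hs x i = s i * x i := by
  show (Units.mk0 (s i) (hs i)) • x i = s i * x i
  rw [Units.smul_def]
  simp

/-- cyclic permutation of the coordinates -/
noncomputable def rotEquiv (K : Type u) [Field K] : (Fin 3 → K) ≃ₗ[K] (Fin 3 → K) :=
  LinearEquiv.funCongrLeft K K (finRotate 3).symm

theorem rotEquiv_zero {K : Type u} [Field K] (x : Fin 3 → K) : rotEquiv K x 0 = x 2 := by
  have h : (finRotate 3).symm 0 = 2 := by decide
  simp [rotEquiv, LinearEquiv.funCongrLeft_apply, LinearMap.funLeft_apply, h]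

theorem rotEquiv_one {K : Type u} [Field K] (x : Fin 3 → K) : rotEquiv K x 1 = x 0 := by
  have h : (finRotate 3).symm 1 = 0 := by decide
  simp [rotEquiv, LinearEquiv.funCongrLeft_apply, LinearMap.funLeft_apply, h]

theorem rotEquiv_two {K : Type u} [Field K] (x : Fin 3 → K) : rotEquiv K x 2 = x 1 := by
  have h : (finRotate 3).symm 2 = 1 := by decide
  simp [rotEquiv, LinearEquiv.funCongrLeft_apply, LinearMap.funLeft_apply, h]

/-- the rotated form is unramified -/
theorem unram_rot (hRS : RamSim.{u}) {K : Type u} [Field K] {a b c : K}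
    (h : ∀ V : ZVal K, ¬ Ram V (dg a b c)) : ∀ V : ZVal K, ¬ Ram V (dg b c a) := by
  intro V hV
  apply h V
  refine hRS K V (dg a b c) (dg b c a) (rotEquiv K) 1 one_ne_zero ?_ hV
  intro x
  simp only [dg, rotEquiv_zero, rotEquiv_one, rotEquiv_two]
  ring

/-- a nonzero vector of polynomials gives a nonzero vector -/
theorem vec_ne_zero {F : Type u} [Field F] (x y z : F[X]) (h : ¬ (x = 0 ∧ y = 0 ∧ z = 0)) :
    (![pr x, pr y, pr z] : Fin 3 → RatFunc F) ≠ 0 := by
  intro h0
  apply h
  have inj : Function.Injective (algebraMap F[X] (RatFunc F)) :=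
    RatFunc.algebraMap_injective F
  have e0 := congrFun h0 0
  have e1 := congrFun h0 1
  have e2 := congrFun h0 2
  simp only [Matrix.cons_val_zero, Matrix.cons_val_one, Matrix.cons_val, Pi.zero_apply] at e0 e1 e2
  refine ⟨?_, ?_, ?_⟩
  · exact (map_eq_zero_iff _ inj).1 e0
  · exact (map_eq_zero_iff _ inj).1 e1
  · exact (map_eq_zero_iff _ inj).1 e2

/-- A7: the induction step -/
theorem stepPP (hRS : RamSim.{u}) (hRG : RamGauss.{u}) (hNF : NormForm.{u}) (hLS : LocalSq.{u})
    (hL1 : Lattice1.{u}) (hL2 : Lattice2.{u}) : StepPP.{u} := by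
  intro k _ _ h2 F _ _ hPP a b c ha hb hc hun
  obtain ⟨A, B, G, m, s₁, s₂, s₃, hA, hB, hG, hm, hs1, hs2, hs3, sqA, sqB, sqG, cAB, cAG, cBG,
    eA, eB, eG⟩ := hNF F a b c ha hb hc
  have inj : Function.Injective (algebraMap F[X] (RatFunc F)) :=
    RatFunc.algebraMap_injective F
  have pA : pr A ≠ 0 := (map_ne_zero_iff _ inj).2 hA
  have pB : pr B ≠ 0 := (map_ne_zero_iff _ inj).2 hB
  have pG : pr G ≠ 0 := (map_ne_zero_iff _ inj).2 hG
  -- the diagonal change of variables
  have hs : ∀ i, (![s₁, s₂, s₃] : Fin 3 → RatFunc F) i ≠ 0 := by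
    intro i
    fin_cases i <;> simp [hs1, hs2, hs3]
  set M := diagEquiv (![s₁, s₂, s₃] : Fin 3 → RatFunc F) hs with hM
  have key : ∀ x, dg (pr A) (pr B) (pr G) x = m * dg a b c (M x) := by
    intro x
    simp only [dg, hM, diagEquiv_apply, eA, eB, eG, Matrix.cons_val_zero, Matrix.cons_val_one,
      Matrix.cons_val]
    ring
  -- unramified everywhere
  have un1 : ∀ V : ZVal (RatFunc F), ¬ Ram V (dg (pr A) (pr B) (pr G)) := by
    intro V hV
    exact hun V (hRS (RatFunc F) V (dg a b c) (dg (pr A) (pr B) (pr G)) M m hm key hV)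
  have un2 := unram_rot hRS un1
  have un3 := unram_rot hRS un2
  -- an isotropic vector of the normal form suffices
  suffices hiso : ∃ x : Fin 3 → RatFunc F, x ≠ 0 ∧ dg (pr A) (pr B) (pr G) x = 0 by
    obtain ⟨x, hx, hq⟩ := hiso
    refine ⟨M x, ?_, ?_⟩
    · intro h0
      exact hx ((map_eq_zero_iff M M.injective).1 h0)
    · rw [key x] at hq
      exact (mul_eq_zero.1 hq).resolve_left hm
  have poly : (∃ x y z : F[X], ¬ (x = 0 ∧ y = 0 ∧ z = 0) ∧ A * x ^ 2 + B * y ^ 2 + G * z ^ 2 = 0) →
      ∃ x : Fin 3 → RatFunc F, x ≠ 0 ∧ dg (pr A) (pr B) (pr G) x = 0 := by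
    rintro ⟨x, y, z, hne, h0⟩
    refine ⟨![pr x, pr y, pr z], vec_ne_zero x y z hne, ?_⟩
    have := congrArg (algebraMap F[X] (RatFunc F)) h0
    simp only [map_add, map_mul, map_pow, map_zero] at this
    simpa [dg] using this
  obtain ⟨lG, hlG⟩ := hLS F A B G hA hB hG sqG cAG cBG un1
  obtain ⟨lA, hlA⟩ := hLS F B G A hB hG hA sqA cAB.symm cAG.symm un2
  obtain ⟨lB, hlB⟩ := hLS F G A B hG hA hB sqB cBG.symm cAB un3
  by_cases hpar : A.natDegree % 2 = B.natDegree % 2 ∧ B.natDegree % 2 = G.natDegree % 2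
  · have h2F : (2 : F) ≠ 0 := by
      have : (algebraMap k F) 2 ≠ 0 := by
        rw [Ne, map_eq_zero]
        exact h2
      rwa [map_ofNat] at this
    rcases hL2 F h2F A B G lA lB lG hA hB hG cAB cAG cBG hlG hlA hlB hpar.1 hpar.2 with hiso | hw
    · exact poly hiso
    · exfalso
      obtain ⟨w, d, hd, hort, hani⟩ := hw
      have hortp : ∀ i j, pr A * pr (w i 0) * pr (w j 0) + pr B * pr (w i 1) * pr (w j 1) +
          pr G * pr (w i 2) * pr (w j 2) =
          if i = j then pr A * pr B * pr G * pr (C (d i)) else 0 := by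
        intro i j
        have := congrArg (algebraMap F[X] (RatFunc F)) (hort i j)
        by_cases hij : i = j
        · simp only [hij, if_true] at this ⊢
          simpa only [map_add, map_mul] using this
        · simp only [hij, if_false] at this ⊢
          simpa only [map_add, map_mul, map_zero] using this
      -- the linear map
      let N : (Fin 3 → RatFunc F) →ₗ[RatFunc F] (Fin 3 → RatFunc F) :=
        { toFun := fun x j => ∑ i, x i * pr (w i j)
          map_add' := by
            intro x y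
            funext j
            simp only [Pi.add_apply, add_mul, Finset.sum_add_distrib]
          map_smul' := by
            intro r x
            funext j
            simp only [Pi.smul_apply, smul_eq_mul, RingHom.id_apply, Finset.mul_sum, mul_assoc] }
      have hN : ∀ x j, N x j = x 0 * pr (w 0 j) + x 1 * pr (w 1 j) + x 2 * pr (w 2 j) := by
        intro x j
        show ∑ i, x i * pr (w i j) = _
        rw [Fin.sum_univ_three]
      have pC : ∀ i, pr (C (d i)) ≠ 0 := by
        intro i
        apply (map_ne_zero_iff _ inj).2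
        simpa using hd i
      have hbil : ∀ x i, pr A * N x 0 * pr (w i 0) + pr B * N x 1 * pr (w i 1) +
          pr G * N x 2 * pr (w i 2) = x i * (pr A * pr B * pr G * pr (C (d i))) := by
        intro x i
        rw [hN, hN, hN]
        have h0 := hortp 0 i
        have h1 := hortp 1 i
        have h2 := hortp 2 i
        fin_cases i
        · simp at h0 h1 h2 ⊢
          linear_combination x 0 * h0 + x 1 * h1 + x 2 * h2
        · simp at h0 h1 h2 ⊢
          linear_combination x 0 * h0 + x 1 * h1 + x 2 * h2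
        · simp at h0 h1 h2 ⊢
          linear_combination x 0 * h0 + x 1 * h1 + x 2 * h2
      have hinj : Function.Injective N := by
        rw [injective_iff_map_eq_zero]
        intro x hx
        funext i
        have := hbil x i
        rw [hx] at this
        simp only [Pi.zero_apply, mul_zero, zero_mul, add_zero] at this
        have h' := this.symm
        rcases mul_eq_zero.1 h' with h | h
        · simpa using h
        · exact absurd h (mul_ne_zero (mul_ne_zero (mul_ne_zero pA pB) pG) (pC i))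
      let Me : (Fin 3 → RatFunc F) ≃ₗ[RatFunc F] (Fin 3 → RatFunc F) :=
        LinearEquiv.ofInjectiveEndo N hinj
      have hMe : ∀ x, Me x = N x := fun x => by
        simp [Me]
      have pABG : pr A * pr B * pr G ≠ 0 := mul_ne_zero (mul_ne_zero pA pB) pG
      have hq : ∀ x, dg (pr (C (d 0))) (pr (C (d 1))) (pr (C (d 2))) x =
          (pr A * pr B * pr G)⁻¹ * dg (pr A) (pr B) (pr G) (Me x) := by
        intro x
        rw [eq_inv_mul_iff_mul_eq₀ pABG]
        simp only [dg, hMe]
        have h0 := hbil x 0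
        have h1 := hbil x 1
        have h2 := hbil x 2
        have e0 := hN x 0
        have e1 := hN x 1
        have e2 := hN x 2
        have : pr A * N x 0 ^ 2 + pr B * N x 1 ^ 2 + pr G * N x 2 ^ 2 =
            x 0 * (pr A * N x 0 * pr (w 0 0) + pr B * N x 1 * pr (w 0 1) +
              pr G * N x 2 * pr (w 0 2)) +
            x 1 * (pr A * N x 0 * pr (w 1 0) + pr B * N x 1 * pr (w 1 1) +
              pr G * N x 2 * pr (w 1 2)) +
            x 2 * (pr A * N x 0 * pr (w 2 0) + pr B * N x 1 * pr (w 2 1) +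
              pr G * N x 2 * pr (w 2 2)) := by
          have r0 : N x 0 ^ 2 = N x 0 * (x 0 * pr (w 0 0) + x 1 * pr (w 1 0) + x 2 * pr (w 2 0)) := by
            rw [← e0]; ring
          have r1 : N x 1 ^ 2 = N x 1 * (x 0 * pr (w 0 1) + x 1 * pr (w 1 1) + x 2 * pr (w 2 1)) := by
            rw [← e1]; ring
          have r2 : N x 2 ^ 2 = N x 2 * (x 0 * pr (w 0 2) + x 1 * pr (w 1 2) + x 2 * pr (w 2 2)) := by
            rw [← e2]; ring
          rw [r0, r1, r2]
          ring
        rw [this, h0, h1, h2]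
        ring
      have hdn : ∀ V : ZVal F, ¬ Ram V (dg (d 0) (d 1) (d 2)) := by
        intro V hV
        obtain ⟨V', hV'⟩ := hRG k F V (d 0) (d 1) (d 2) (hd 0) (hd 1) (hd 2) hV
        exact un1 V' (hRS (RatFunc F) V' (dg (pr A) (pr B) (pr G))
          (dg (pr (C (d 0))) (pr (C (d 1))) (pr (C (d 2)))) Me (pr A * pr B * pr G)⁻¹
          (inv_ne_zero pABG) hq hV')
      obtain ⟨x, hx, hx0⟩ := hPP (d 0) (d 1) (d 2) (hd 0) (hd 1) (hd 2) hdn
      exact hani x hx hx0
  · exact poly (hL1 F A B G lA lB lG hA hB hG cAB cAG cBG hlG hlA hlB hpar)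

end Pool.Agent.Helper11.RZ
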